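import Mathlib

set_option autoImplicit false

namespace Pool.Agent.Work.MP_f345de_al

/-- The irrational reals. -/
abbrev P : Type := {r : ℝ // Irrational r}

/-- The totally ordered set `ℤ × P` with the lexicographic order: the universal cover of the
projective line with its rational points removed. -/
abbrev X : Type := ℤ ×ₗ P

/-- Constructor for points of `X`. -/
def mk (n : ℤ) (r : ℝ) (h : Irrational r) : X := toLex (n, ⟨r, h⟩)

theorem mk_congr {n n' : ℤ} {r r' : ℝ} {h : Irrational r} {h' : Irrational r'}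
    (hn : n = n') (hr : r = r') : mk n r h = mk n' r' h' := by
  subst hn; subst hr; rfl

theorem mk_eq_iff {n n' : ℤ} {r r' : ℝ} {h : Irrational r} {h' : Irrational r'} :
    mk n r h = mk n' r' h' ↔ n = n' ∧ r = r' := by
  constructor
  · intro e
    have e' := congrArg ofLex e
    simp only [mk, ofLex_toLex, Prod.mk.injEq, Subtype.mk.injEq] at e'
    exact e'
  · rintro ⟨hn, hr⟩
    exact mk_congr hn hr

theorem exists_mk (p : X) : ∃ n r h, p = mk n r h :=
  ⟨(ofLex p).1, (ofLex p).2.1, (ofLex p).2.2, rfl⟩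

theorem mk_lt_iff {n n' : ℤ} {r r' : ℝ} {h : Irrational r} {h' : Irrational r'} :
    mk n r h < mk n' r' h' ↔ n < n' ∨ (n = n' ∧ r < r') := by
  rw [mk, mk, Prod.Lex.toLex_lt_toLex]
  simp

/-- Translation by a rational number on `P`. -/
noncomputable def uP (q : ℚ) : P ≃o P where
  toFun r := ⟨r.1 + q, r.2.add_ratCast q⟩
  invFun r := ⟨r.1 - q, r.2.sub_ratCast q⟩
  left_inv r := by ext; simp
  right_inv r := by ext; simp
  map_rel_iff' := by
    intro a b
    simp [← Subtype.coe_le_coe]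

/-- Dilation by a positive rational number on `P`. -/
noncomputable def mP (q : ℚ) (hq : 0 < q) : P ≃o P where
  toFun r := ⟨q * r.1, r.2.ratCast_mul hq.ne'⟩
  invFun r := ⟨r.1 / q, r.2.div_ratCast hq.ne'⟩
  left_inv r := by
    ext
    have : (q : ℝ) ≠ 0 := by exact_mod_cast hq.ne'
    field_simp
  right_inv r := by
    ext
    have : (q : ℝ) ≠ 0 := by exact_mod_cast hq.ne'
    field_simp
  map_rel_iff' := by
    intro a b
    have : (0 : ℝ) < q := by exact_mod_cast hq
    simp [← Subtype.coe_le_coe, this]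

/-- Translation on `X`. -/
noncomputable def uX (q : ℚ) : X ≃o X := Prod.Lex.prodLexCongr (OrderIso.refl ℤ) (uP q)

/-- Dilation on `X`. -/
noncomputable def mX (q : ℚ) (hq : 0 < q) : X ≃o X :=
  Prod.Lex.prodLexCongr (OrderIso.refl ℤ) (mP q hq)

theorem uX_mk (q : ℚ) (n : ℤ) (r : ℝ) (h : Irrational r) :
    uX q (mk n r h) = mk n (r + q) (h.add_ratCast q) := rfl

theorem mX_mk (q : ℚ) (hq : 0 < q) (n : ℤ) (r : ℝ) (h : Irrational r) :
    mX q hq (mk n r h) = mk n (q * r) (h.ratCast_mul hq.ne') := rfl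

theorem irr_neg_inv {r : ℝ} (h : Irrational r) : Irrational (-r⁻¹) := h.inv.neg

/-- The lift of `r ↦ -1/r`. -/
noncomputable def tFun (p : X) : X :=
  mk ((ofLex p).1 + if 0 < (ofLex p).2.1 then 1 else 0) (-((ofLex p).2.1)⁻¹)
    (irr_neg_inv (ofLex p).2.2)

/-- The inverse of the lift of `r ↦ -1/r`. -/
noncomputable def tInv (p : X) : X :=
  mk ((ofLex p).1 - if (ofLex p).2.1 < 0 then 1 else 0) (-((ofLex p).2.1)⁻¹)
    (irr_neg_inv (ofLex p).2.2)

theorem tFun_mk (n : ℤ) (r : ℝ) (h : Irrational r) :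
    tFun (mk n r h) = mk (n + if 0 < r then 1 else 0) (-r⁻¹) (irr_neg_inv h) := rfl

theorem tInv_mk (n : ℤ) (r : ℝ) (h : Irrational r) :
    tInv (mk n r h) = mk (n - if r < 0 then 1 else 0) (-r⁻¹) (irr_neg_inv h) := rfl

theorem tFun_strictMono : StrictMono tFun := by
  intro p q hpq
  obtain ⟨n, r, h, rfl⟩ := exists_mk p
  obtain ⟨n', r', h', rfl⟩ := exists_mk q
  rw [mk_lt_iff] at hpq
  rw [tFun_mk, tFun_mk, mk_lt_iff]
  rcases lt_or_gt_of_ne h.ne_zero with hr | hr <;>
  rcases lt_or_gt_of_ne h'.ne_zero with hr' | hr'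
  · rw [if_neg (not_lt.2 hr.le), if_neg (not_lt.2 hr'.le)]
    rcases hpq with h1 | ⟨h1, h2⟩
    · left; omega
    · right
      refine ⟨by omega, ?_⟩
      rw [neg_lt_neg_iff]
      exact (inv_lt_inv_of_neg hr' hr).2 h2
  · rw [if_neg (not_lt.2 hr.le), if_pos hr']
    left
    rcases hpq with h1 | ⟨h1, h2⟩ <;> omega
  · rw [if_pos hr, if_neg (not_lt.2 hr'.le)]
    rcases hpq with h1 | ⟨h1, h2⟩
    · have h3 : -r⁻¹ < -r'⁻¹ := by
        have a := inv_pos.2 hr
        have b := inv_lt_zero.2 hr'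
        linarith
      rcases lt_or_eq_of_le (show n + 1 ≤ n' by omega) with h4 | h4
      · left; omega
      · right; exact ⟨by omega, h3⟩
    · exfalso; linarith
  · rw [if_pos hr, if_pos hr']
    rcases hpq with h1 | ⟨h1, h2⟩
    · left; omega
    · right
      refine ⟨by omega, ?_⟩
      rw [neg_lt_neg_iff]
      exact (inv_lt_inv₀ hr' hr).2 h2

theorem tFun_tInv (p : X) : tFun (tInv p) = p := by
  obtain ⟨n, r, h, rfl⟩ := exists_mk p
  rw [tInv_mk, tFun_mk]
  refine mk_congr ?_ ?_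
  · rcases lt_or_gt_of_ne h.ne_zero with hr | hr
    · rw [if_pos hr, if_pos]
      · omega
      · have := inv_lt_zero.2 hr
        linarith
    · rw [if_neg (not_lt.2 hr.le), if_neg]
      · omega
      · have := inv_pos.2 hr
        linarith
  · have := h.ne_zero
    field_simp

/-- The lift of `r ↦ -1/r` as an order automorphism of `X`. -/
noncomputable def tX : X ≃o X := tFun_strictMono.orderIsoOfRightInverse tFun tInv tFun_tInv

theorem tX_mk (n : ℤ) (r : ℝ) (h : Irrational r) :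
    tX (mk n r h) = mk (n + if 0 < r then 1 else 0) (-r⁻¹) (irr_neg_inv h) := rfl

theorem tX_inv_mk (n : ℤ) (r : ℝ) (h : Irrational r) :
    tX⁻¹ (mk n r h) = mk (n - if r < 0 then 1 else 0) (-r⁻¹) (irr_neg_inv h) := rfl

theorem ext_mk {f g : X ≃o X} (H : ∀ n r (h : Irrational r), f (mk n r h) = g (mk n r h)) :
    f = g := by
  apply RelIso.ext
  intro p
  obtain ⟨n, r, h, rfl⟩ := exists_mk p
  exact H n r h

theorem uX_mul (q q' : ℚ) : uX q * uX q' = uX (q' + q) := by
  apply ext_mk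
  intro n r h
  rw [RelIso.mul_apply, uX_mk, uX_mk, uX_mk]
  refine mk_congr rfl ?_
  push_cast
  ring

theorem mX_mul_uX (a q : ℚ) (ha : 0 < a) : mX a ha * uX q = uX (a * q) * mX a ha := by
  apply ext_mk
  intro n r h
  rw [RelIso.mul_apply, RelIso.mul_apply, uX_mk, mX_mk, mX_mk, uX_mk]
  refine mk_congr rfl ?_
  push_cast
  ring

theorem tX_mul_mX (a : ℚ) (ha : 0 < a) : mX a ha * (tX * mX a ha) = tX := by
  apply ext_mk
  intro n r h
  have ha' : (0 : ℝ) < a := by exact_mod_cast ha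
  rw [RelIso.mul_apply, RelIso.mul_apply, mX_mk, tX_mk, mX_mk, tX_mk]
  refine mk_congr ?_ ?_
  · rcases lt_or_gt_of_ne h.ne_zero with hr | hr
    · rw [if_neg, if_neg (not_lt.2 hr.le)]
      exact not_lt.2 (mul_nonpos_of_nonneg_of_nonpos ha'.le hr.le)
    · rw [if_pos, if_pos hr]
      exact mul_pos ha' hr
  · have := h.ne_zero
    field_simp

theorem tX_sq_mk (n : ℤ) (r : ℝ) (h : Irrational r) : (tX * tX) (mk n r h) = mk (n + 1) r h := by
  rw [RelIso.mul_apply, tX_mk, tX_mk]
  refine mk_congr ?_ ?_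
  · rcases lt_or_gt_of_ne h.ne_zero with hr | hr
    · have := inv_lt_zero.2 hr
      rw [if_neg (not_lt.2 hr.le), if_pos (by linarith)]
      omega
    · have := inv_pos.2 hr
      rw [if_pos hr, if_neg (by linarith)]
      omega
  · have := h.ne_zero
    field_simp

theorem tX_sq_uX (q : ℚ) : (tX * tX) * uX q = uX q * (tX * tX) := by
  apply ext_mk
  intro n r h
  change (tX * tX) (uX q (mk n r h)) = uX q ((tX * tX) (mk n r h))
  rw [uX_mk, tX_sq_mk, tX_sq_mk, uX_mk]

theorem tX_sq_mX (a : ℚ) (ha : 0 < a) : (tX * tX) * mX a ha = mX a ha * (tX * tX) := by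
  apply ext_mk
  intro n r h
  change (tX * tX) (mX a ha (mk n r h)) = mX a ha ((tX * tX) (mk n r h))
  rw [mX_mk, tX_sq_mk, tX_sq_mk, mX_mk]

/-- The key relation `m(q²) t = u(q) t u(1/q) t⁻¹ u(q)`. -/
theorem key_rel (q : ℚ) (hq : 0 < q) :
    mX (q * q) (mul_pos hq hq) * tX = uX q * (tX * (uX q⁻¹ * (tX⁻¹ * uX q))) := by
  apply ext_mk
  intro n r h
  have hq' : (0 : ℝ) < q := by exact_mod_cast hq
  simp only [RelIso.mul_apply]
  rw [uX_mk, tX_inv_mk, uX_mk, tX_mk, tX_mk, mX_mk, uX_mk]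
  have hr0 := h.ne_zero
  have hs0 : r + q ≠ 0 := (h.add_ratCast q).ne_zero
  have e1 : -(r + (q : ℝ))⁻¹ + ((q⁻¹ : ℚ) : ℝ) = r / (q * (r + q)) := by
    push_cast
    field_simp
    ring
  refine mk_congr ?_ ?_
  · rw [e1]
    rcases lt_or_gt_of_ne hr0 with hr | hr
    · rcases lt_or_gt_of_ne hs0 with hs | hs
      · rw [if_neg (not_lt.2 hr.le), if_pos hs, if_pos]
        · omega
        · exact div_pos_of_neg_of_neg hr (mul_neg_of_pos_of_neg hq' hs)
      · rw [if_neg (not_lt.2 hr.le), if_neg (not_lt.2 hs.le), if_neg]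
        · omega
        · exact not_lt.2 (div_nonpos_of_nonpos_of_nonneg hr.le (mul_pos hq' hs).le)
    · have hs : 0 < r + q := by linarith
      rw [if_pos hr, if_neg (not_lt.2 hs.le), if_pos]
      · omega
      · exact div_pos hr (mul_pos hq' hs)
  · rw [e1]
    push_cast
    field_simp
    ring

end Pool.Agent.Work.MP_f345de_al
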