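import Mathlib

set_option autoImplicit false

open scoped commutatorElement

namespace Pool.Agent.Work.MP_f345de_al

/-- Core statement: a bi-ordered group `E` with an abelian normal subgroup `A`, such that `E` is
finitely generated modulo `A`, and there is an element `x` with `x ^ 2` central modulo `A` and such
that the only normal subgroup containing `A` modulo which `x` is central is the whole group.
Then `A = ⊤`. -/
theorem core {E : Type*} [Group E] [LinearOrder E] [MulLeftMono E] [MulRightMono E]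
    (A : Subgroup E) [A.Normal] (hA : ∀ a ∈ A, ∀ b ∈ A, a * b = b * a)
    (x : E) {ι : Type*} [Finite ι] (e : ι → E)
    (hgen : ∀ Γ : Subgroup E, A ≤ Γ → (∀ i, e i ∈ Γ) → Γ = ⊤)
    (hcen : ∀ y : E, ⁅x ^ 2, y⁆ ∈ A)
    (hΓ : ∀ Γ : Subgroup E, Γ.Normal → A ≤ Γ → (∀ y : E, ⁅x, y⁆ ∈ Γ) → Γ = ⊤) :
    A = ⊤ := by
  classical
  -- the subgroup [E, A]
  set A1 : Subgroup E := ⁅(⊤ : Subgroup E), A⁆ with hA1
  have hA1A : A1 ≤ A := Subgroup.commutator_le_right ⊤ A
  have hA1n : A1.Normal := by rw [hA1]; infer_instance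
  have hcomm : ∀ e : E, ∀ a ∈ A, ⁅e, a⁆ ∈ A1 := fun e a ha =>
    Subgroup.commutator_mem_commutator (Subgroup.mem_top e) ha
  -- Step 1: [x^2, y] ∈ A1
  have step1 : ∀ y : E, ⁅x ^ 2, y⁆ ∈ A1 := by
    -- work in the quotient by A1
    let π : E →* E ⧸ A1 := QuotientGroup.mk' A1
    have hπ : ∀ g : E, π g = 1 ↔ g ∈ A1 := fun g => QuotientGroup.eq_one_iff g
    -- images of A are central
    have hAc : ∀ a ∈ A, ∀ g : E, π g * π a = π a * π g := by
      intro a ha g
      have := (hπ _).2 (hcomm g a ha)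
      rw [map_commutatorElement, commutatorElement_eq_one_iff_mul_comm] at this
      exact this
    -- define the subgroup of elements commuting with x^2 modulo A1
    let C : Subgroup E := (Subgroup.centralizer {π (x ^ 2)}).comap π
    have hC : ∀ g : E, g ∈ C ↔ π (x ^ 2) * π g = π g * π (x ^ 2) := by
      intro g
      simp only [C, Subgroup.mem_comap, Subgroup.mem_centralizer_iff, Set.mem_singleton_iff,
        forall_eq]
    have hCA : A ≤ C := fun a ha => (hC a).2 (hAc a ha _)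
    have hCcomm : ∀ y z : E, ⁅y, z⁆ ∈ C := by
      intro y z
      rw [hC]
      -- conj by x^2 sends y to c_y y
      obtain ⟨cy, hcyA, hcy⟩ : ∃ c ∈ A, x ^ 2 * y = c * y * x ^ 2 := by
        refine ⟨⁅x ^ 2, y⁆, hcen y, ?_⟩
        simp only [commutatorElement_def]; group
      obtain ⟨cz, hczA, hcz⟩ : ∃ c ∈ A, x ^ 2 * z = c * z * x ^ 2 := by
        refine ⟨⁅x ^ 2, z⁆, hcen z, ?_⟩
        simp only [commutatorElement_def]; group
      have e1 : π (x ^ 2) * π y * (π (x ^ 2))⁻¹ = π cy * π y := by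
        rw [← map_mul, hcy]; simp
      have e2 : π (x ^ 2) * π z * (π (x ^ 2))⁻¹ = π cz * π z := by
        rw [← map_mul, hcz]; simp
      have cyc := hAc cy hcyA
      have czc := hAc cz hczA
      rw [← mul_inv_eq_iff_eq_mul]
      rw [commutatorElement_def]
      simp only [map_mul, map_inv]
      set X := π (x ^ 2)
      have : X * (π y * π z * (π y)⁻¹ * (π z)⁻¹) * X⁻¹ =
          (X * π y * X⁻¹) * (X * π z * X⁻¹) * (X * π y * X⁻¹)⁻¹ * (X * π z * X⁻¹)⁻¹ := by
        group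
      rw [this, e1, e2]
      have c1 : ∀ g : E, Commute (π cy) (π g) := fun g => (cyc g).symm
      have c2 : ∀ g : E, Commute (π cz) (π g) := fun g => (czc g).symm
      -- (cy y)(cz z)(cy y)⁻¹(cz z)⁻¹ = y z y⁻¹ z⁻¹
      have hy : π cy * π y * (π cz * π z) = π cy * π cz * (π y * π z) := by
        rw [mul_assoc, ← mul_assoc (π y), (c2 y).symm.eq]; simp only [mul_assoc]
      have hz : (π cy * π y)⁻¹ * (π cz * π z)⁻¹ = (π y)⁻¹ * (π z)⁻¹ * (π cy * π cz)⁻¹ := by
        rw [← mul_inv_rev, ← mul_inv_rev, ← mul_inv_rev]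
        congr 1
        rw [mul_assoc, ← mul_assoc (π z), (c1 z).symm.eq, mul_assoc, ← mul_assoc (π cz),
          (c2 cy).eq, mul_assoc]
      rw [mul_assoc _ (π cy * π y)⁻¹, hy, hz]
      have hcc : Commute (π cy * π cz) (π y * π z * ((π y)⁻¹ * (π z)⁻¹)) := by
        have := ((c1 (y * z * (y⁻¹ * z⁻¹))).mul_left (c2 (y * z * (y⁻¹ * z⁻¹))))
        simpa using this
      calc π cy * π cz * (π y * π z) * ((π y)⁻¹ * (π z)⁻¹ * (π cy * π cz)⁻¹)
          = (π cy * π cz * (π y * π z * ((π y)⁻¹ * (π z)⁻¹))) * (π cy * π cz)⁻¹ := by group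
        _ = π y * π z * (π y)⁻¹ * (π z)⁻¹ := by rw [hcc.eq]; group
    have hCtop : C = ⊤ := by
      have hle : commutator E ≤ C := by
        rw [commutator_def, Subgroup.commutator_le]
        intro y _ z _
        exact hCcomm y z
      have hn : C.Normal := by
        refine ⟨fun n hn g => ?_⟩
        have : g * n * g⁻¹ = ⁅g, n⁆ * n := by rw [commutatorElement_def]; group
        rw [this]
        exact C.mul_mem (hCcomm g n) hn
      exact hΓ C hn hCA (fun y => hCcomm x y)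
    intro y
    have : y ∈ C := by rw [hCtop]; exact Subgroup.mem_top y
    rw [hC] at this
    rw [← hπ, map_commutatorElement, commutatorElement_eq_one_iff_mul_comm]
    exact this
  -- Step 2: the subgroup Γ
  have hAcomm_inv : ∀ g : E, ∀ a ∈ A, ⁅g, a⁻¹⁆ = ⁅g, a⁆⁻¹ := by
    intro g a ha
    have h1 : g * a * g⁻¹ ∈ A := ‹A.Normal›.conj_mem a ha g
    have h2 := hA _ h1 a⁻¹ (A.inv_mem ha)
    rw [commutatorElement_def, commutatorElement_def, h2]
    group
  have hconjA1 : ∀ g : E, ∀ c ∈ A1, g * c * g⁻¹ ∈ A1 := fun g c hc => hA1n.conj_mem c hc g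
  let Γ : Subgroup E :=
    { carrier := {n | ∃ c ∈ A1, ∀ a ∈ A, ⁅n, a⁆ ≤ c}
      mul_mem' := by
        rintro n m ⟨c, hc, hn⟩ ⟨d, hd, hm⟩
        refine ⟨n * d * n⁻¹ * c, A1.mul_mem (hconjA1 n d hd) hc, fun a ha => ?_⟩
        have : ⁅n * m, a⁆ = n * ⁅m, a⁆ * n⁻¹ * ⁅n, a⁆ := by
          simp only [commutatorElement_def]; group
        rw [this]
        exact mul_le_mul' (mul_le_mul_left (mul_le_mul_right (hm a ha) n) n⁻¹) (hn a ha)
      one_mem' := ⟨1, A1.one_mem, fun a _ => by simp⟩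
      inv_mem' := by
        rintro n ⟨c, hc, hn⟩
        refine ⟨c, hc, fun a ha => ?_⟩
        have hb : n⁻¹ * a * n ∈ A := by
          have := ‹A.Normal›.conj_mem a ha n⁻¹
          simpa using this
        have h1 : ⁅n⁻¹, a⁆ = ⁅n, (n⁻¹ * a * n)⁻¹⁆ := by
          rw [hAcomm_inv n _ hb, commutatorElement_def, commutatorElement_def]
          group
        rw [h1]
        exact hn _ (A.inv_mem hb) }
  have hΓmem : ∀ n : E, n ∈ Γ ↔ ∃ c ∈ A1, ∀ a ∈ A, ⁅n, a⁆ ≤ c := fun n => Iff.rfl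
  have hΓn : Γ.Normal := by
    refine ⟨fun n hn g => ?_⟩
    obtain ⟨c, hc, h⟩ := (hΓmem n).1 hn
    refine (hΓmem _).2 ⟨g * c * g⁻¹, hconjA1 g c hc, fun a ha => ?_⟩
    have hb : g⁻¹ * a * g ∈ A := by
      have := ‹A.Normal›.conj_mem a ha g⁻¹
      simpa using this
    have : ⁅g * n * g⁻¹, a⁆ = g * ⁅n, g⁻¹ * a * g⁆ * g⁻¹ := by
      simp only [commutatorElement_def]; group
    rw [this]
    exact mul_le_mul_left (mul_le_mul_right (h _ hb) g) g⁻¹
  have hAΓ : A ≤ Γ := by
    intro n hn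
    refine (hΓmem n).2 ⟨1, A1.one_mem, fun a ha => ?_⟩
    rw [(commutatorElement_eq_one_iff_mul_comm).2 (hA n hn a ha)]
  -- Step 3: [x, y] ∈ Γ
  have step3 : ∀ y : E, ⁅x, y⁆ ∈ Γ := by
    intro y
    set w := ⁅x, y⁆ with hw
    have hc := step1 y
    set c := ⁅x ^ 2, y⁆ with hcdef
    have hcw : x * w * x⁻¹ * w = c := by
      rw [hw, hcdef, commutatorElement_def, commutatorElement_def, pow_two]; group
    have key : ∀ a : E, x * w * x⁻¹ * (a * w * a⁻¹) = c * ⁅w⁻¹, a⁆ := by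
      intro a
      rw [← hcw, commutatorElement_def]; group
    have hinv : w⁻¹ ∈ Γ := by
      rcases le_total 1 w with h1 | h1
      · refine (hΓmem _).2 ⟨c, hc, fun a ha => ?_⟩
        have h2 : 1 ≤ x * w * x⁻¹ := by
          have := mul_le_mul_left (mul_le_mul_right h1 x) x⁻¹
          simpa using this
        have h3 : 1 ≤ a⁻¹ * w * a⁻¹⁻¹ := by
          have := mul_le_mul_left (mul_le_mul_right h1 a⁻¹) a⁻¹⁻¹
          simpa using this
        have h4 : 1 ≤ c * ⁅w⁻¹, a⁻¹⁆ := by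
          rw [← key a⁻¹]
          exact one_le_mul h2 h3
        rw [hAcomm_inv _ a ha] at h4
        have := mul_le_mul_left h4 ⁅w⁻¹, a⁆
        rwa [one_mul, inv_mul_cancel_right] at this
      · refine (hΓmem _).2 ⟨c⁻¹, A1.inv_mem hc, fun a ha => ?_⟩
        have h2 : x * w * x⁻¹ ≤ 1 := by
          have := mul_le_mul_left (mul_le_mul_right h1 x) x⁻¹
          simpa using this
        have h3 : a * w * a⁻¹ ≤ 1 := by
          have := mul_le_mul_left (mul_le_mul_right h1 a) a⁻¹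
          simpa using this
        have h4 : c * ⁅w⁻¹, a⁆ ≤ 1 := by
          rw [← key a]
          exact mul_le_one' h2 h3
        have := mul_le_mul_right h4 c⁻¹
        simpa using this
    exact (Subgroup.inv_mem_iff Γ).1 hinv
  have hΓtop : Γ = ⊤ := hΓ Γ hΓn hAΓ step3
  -- Step 4: A1 = ⊥
  have hbound : ∀ i : ι, ∃ c ∈ A1, ∀ a ∈ A, ⁅e i, a⁆ ≤ c := by
    intro i
    have : e i ∈ Γ := by rw [hΓtop]; exact Subgroup.mem_top _
    exact (hΓmem _).1 this
  obtain ⟨c, hcA1, hc⟩ : ∃ c ∈ A1, ∀ i : ι, ∀ a ∈ A, ⁅e i, a⁆ ≤ c := by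
    choose f hf hf' using hbound
    obtain ⟨M, hM⟩ := Set.Finite.bddAbove (Set.finite_range (fun i => (⟨f i, hf i⟩ : A1)))
    refine ⟨M.1, M.2, fun i a ha => (hf' i a ha).trans ?_⟩
    have : (⟨f i, hf i⟩ : A1) ≤ M := hM ⟨i, rfl⟩
    exact this
  -- WLOG 1 ≤ c
  obtain ⟨c, hcA1, hc, hc1⟩ : ∃ c ∈ A1, (∀ i : ι, ∀ a ∈ A, ⁅e i, a⁆ ≤ c) ∧ 1 ≤ c := by
    rcases le_total 1 c with h | h
    · exact ⟨c, hcA1, hc, h⟩
    · exact ⟨1, A1.one_mem, fun i a ha => (hc i a ha).trans h, le_refl _⟩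
  -- subgroup of elements infinitely small compared with c
  let B : Subgroup E :=
    { carrier := {b | b ∈ A ∧ ∀ k : ℕ, b ^ k ≤ c ∧ (b ^ k)⁻¹ ≤ c}
      one_mem' := ⟨A.one_mem, fun k => by simp [hc1]⟩
      inv_mem' := by
        rintro b ⟨hb, h⟩
        refine ⟨A.inv_mem hb, fun k => ?_⟩
        rw [inv_pow, inv_inv]
        exact ⟨(h k).2, (h k).1⟩
      mul_mem' := by
        rintro b d ⟨hb, h⟩ ⟨hd, h'⟩
        have hbd : Commute b d := hA b hb d hd
        have sq : ∀ z : E, z * z ≤ c * c → z ≤ c := by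
          intro z hz
          by_contra hlt
          push Not at hlt
          have : c * c < z * z := mul_lt_mul_of_lt_of_le hlt hlt.le
          exact absurd hz (not_le.2 this)
        refine ⟨A.mul_mem hb hd, fun k => ⟨sq _ ?_, sq _ ?_⟩⟩
        · have : (b * d) ^ k * (b * d) ^ k = b ^ (2 * k) * d ^ (2 * k) := by
            rw [← pow_add, ← two_mul, hbd.mul_pow]
          rw [this]
          exact mul_le_mul' (h (2 * k)).1 (h' (2 * k)).1
        · have : ((b * d) ^ k)⁻¹ * ((b * d) ^ k)⁻¹ = (d ^ (2 * k))⁻¹ * (b ^ (2 * k))⁻¹ := by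
            rw [← mul_inv_rev, ← mul_inv_rev, ← pow_add, ← two_mul, hbd.mul_pow]
          rw [this]
          exact mul_le_mul' (h' (2 * k)).2 (h (2 * k)).2 }
  have hBmem : ∀ b : E, b ∈ B ↔ b ∈ A ∧ ∀ k : ℕ, b ^ k ≤ c ∧ (b ^ k)⁻¹ ≤ c := fun b => Iff.rfl
  have hcommA : ∀ g : E, ∀ a ∈ A, ⁅g, a⁆ ∈ A := fun g a ha => hA1A (hcomm g a ha)
  have hcomm_mul : ∀ g : E, ∀ a ∈ A, ∀ b ∈ A, ⁅g, a * b⁆ = ⁅g, a⁆ * ⁅g, b⁆ := by
    intro g a ha b hb
    have h1 : ⁅g, a * b⁆ = ⁅g, a⁆ * (a * ⁅g, b⁆ * a⁻¹) := by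
      simp only [commutatorElement_def]; group
    rw [h1, hA a ha _ (hcommA g b hb), mul_inv_cancel_right]
  have hcomm_pow : ∀ g : E, ∀ a ∈ A, ∀ k : ℕ, ⁅g, a ^ k⁆ = ⁅g, a⁆ ^ k := by
    intro g a ha k
    induction k with
    | zero => simp
    | succ k ih => rw [pow_succ, hcomm_mul g _ (A.pow_mem ha k) a ha, ih, pow_succ]
  let D : Subgroup E :=
    { carrier := {n | ∀ a ∈ A, ⁅n, a⁆ ∈ B}
      one_mem' := fun a _ => by simp [B.one_mem]
      mul_mem' := by
        intro n m hn hm a ha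
        have h1 : ⁅n * m, a⁆ = ⁅n, ⁅m, a⁆⁆ * ⁅m, a⁆ * ⁅n, a⁆ := by
          simp only [commutatorElement_def]; group
        rw [h1]
        exact B.mul_mem (B.mul_mem (hn _ (hcommA m a ha)) (hm a ha)) (hn a ha)
      inv_mem' := by
        intro n hn a ha
        have hb : n⁻¹ * a * n ∈ A := by
          have := ‹A.Normal›.conj_mem a ha n⁻¹
          simpa using this
        have h1 : ⁅n⁻¹, a⁆ = ⁅n, (n⁻¹ * a * n)⁻¹⁆ := by
          rw [hAcomm_inv n _ hb, commutatorElement_def, commutatorElement_def]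
          group
        rw [h1]
        exact hn _ (A.inv_mem hb) }
  have hDtop : D = ⊤ := by
    refine hgen D ?_ ?_
    · intro n hn a ha
      rw [(commutatorElement_eq_one_iff_mul_comm).2 (hA n hn a ha)]
      exact B.one_mem
    · intro i a ha
      refine (hBmem _).2 ⟨hcommA _ a ha, fun k => ⟨?_, ?_⟩⟩
      · rw [← hcomm_pow _ a ha]
        exact hc i _ (A.pow_mem ha k)
      · rw [← hcomm_pow _ a ha, ← hAcomm_inv _ _ (A.pow_mem ha k)]
        exact hc i _ (A.inv_mem (A.pow_mem ha k))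
  have hA1B : A1 ≤ B := by
    rw [hA1, Subgroup.commutator_le]
    intro g _ a ha
    have : g ∈ D := by rw [hDtop]; exact Subgroup.mem_top g
    exact this a ha
  have hc_le : c ≤ 1 := by
    have h1 := (((hBmem c).1 (hA1B hcA1)).2 2).1
    rw [pow_two] at h1
    exact (mul_le_iff_le_one_left' ).1 h1
  have hA1bot : ∀ b ∈ A1, b = 1 := by
    intro b hb
    have h1 := ((hBmem b).1 (hA1B hb)).2 1
    rw [pow_one] at h1
    refine le_antisymm (h1.1.trans hc_le) ?_
    exact inv_le_one'.1 (h1.2.trans hc_le)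
  -- Step 5: x is central
  have step5 : ∀ y : E, ⁅x, y⁆ = 1 := by
    intro y
    set w := ⁅x, y⁆ with hw
    have hcw : x * w * x⁻¹ * w = 1 := by
      have : x * w * x⁻¹ * w = ⁅x ^ 2, y⁆ := by
        rw [hw, commutatorElement_def, commutatorElement_def, pow_two]; group
      rw [this]
      exact hA1bot _ (step1 y)
    rcases lt_trichotomy w 1 with h | h | h
    · exfalso
      have h2 : x * w * x⁻¹ < 1 := by
        have := mul_lt_mul_left (mul_lt_mul_right h x) x⁻¹
        simpa using this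
      have := mul_lt_one' h2 h
      exact absurd hcw this.ne
    · exact h
    · exfalso
      have h2 : 1 < x * w * x⁻¹ := by
        have := mul_lt_mul_left (mul_lt_mul_right h x) x⁻¹
        simpa using this
      have := one_lt_mul'' h2 h
      exact absurd hcw this.ne'
  exact hΓ A inferInstance le_rfl (fun y => by rw [step5 y]; exact A.one_mem)

end Pool.Agent.Work.MP_f345de_al
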