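import Mathlib

set_option autoImplicit false

namespace Pool.Agent.Work.MP_f345de_al

/-- A group acting faithfully on a totally ordered set by order automorphisms is
right-orderable. -/
theorem exists_rightOrder {Y : Type} [LinearOrder Y] {G : Type} [Group G] (φ : G →* (Y ≃o Y))
    (hφ : Function.Injective φ) :
    ∃ _ : LinearOrder G, ∀ a b c : G, a ≤ b → a * c ≤ b * c := by
  classical
  obtain ⟨ι, io, iw, ⟨ε⟩⟩ : ∃ (ι : Type) (_ : LinearOrder ι) (_ : WellFoundedLT ι),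
      Nonempty (ι ≃ Y) :=
    ⟨Y, WellOrderingRel.isWellOrder.linearOrder, ⟨WellOrderingRel.isWellOrder.wf⟩, ⟨Equiv.refl Y⟩⟩
  let ψ : G → Lex (ι → Y) := fun g => toLex (fun i => (φ g)⁻¹ (ε i))
  have hψ : Function.Injective ψ := by
    intro g g' h
    apply hφ
    apply inv_injective
    apply RelIso.ext
    intro y
    have h' : (fun i => (φ g)⁻¹ (ε i)) = (fun i => (φ g')⁻¹ (ε i)) := h
    have := congrFun h' (ε.symm y)
    simpa using this
  refine ⟨LinearOrder.lift' ψ hψ, ?_⟩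
  intro a b c hab
  have hab' : ψ a ≤ ψ b := hab
  change ψ (a * c) ≤ ψ (b * c)
  rcases hab'.eq_or_lt with h | h
  · have : a = b := hψ h
    rw [this]
  · apply le_of_lt
    obtain ⟨i, h1, h2⟩ := h
    refine ⟨i, fun j hj => ?_, ?_⟩
    · have := h1 j hj
      change (φ a)⁻¹ (ε j) = (φ b)⁻¹ (ε j) at this
      change (φ (a * c))⁻¹ (ε j) = (φ (b * c))⁻¹ (ε j)
      rw [map_mul, map_mul, mul_inv_rev, mul_inv_rev, RelIso.mul_apply, RelIso.mul_apply, this]
    · change (φ a)⁻¹ (ε i) < (φ b)⁻¹ (ε i) at h2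
      change (φ (a * c))⁻¹ (ε i) < (φ (b * c))⁻¹ (ε i)
      rw [map_mul, map_mul, mul_inv_rev, mul_inv_rev, RelIso.mul_apply, RelIso.mul_apply]
      exact (OrderIso.lt_iff_lt _).2 h2

end Pool.Agent.Work.MP_f345de_al
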