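import Pool.Agent.Work.MP_f345de_al.Core
import Pool.Agent.Work.MP_f345de_al.Action
import Pool.Agent.Work.MP_f345de_al.RightOrder

set_option autoImplicit false

open scoped commutatorElement

namespace Pool.Agent.Work.MP_f345de_al

/-- A group with the relations of the lift of the modular group over `ℤ[1/6]` in which `t` is
central is trivial. -/
theorem collapse {Q : Type*} [Group Q] (u t m n : Q) (htu : t * u = u * t) (htm : t * m = m * t)
    (htn : t * n = n * t) (r1 : m * u = u ^ 4 * m) (r2 : n * u = u ^ 9 * n)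
    (r3 : m * (t * m) = t) (r4 : n * (t * n) = t) (r5 : t = u * (t * (u * (t⁻¹ * u))))
    (r6 : m * t = u ^ 2 * (t * (m⁻¹ * u ^ 2 * m * (t⁻¹ * u ^ 2))))
    (r7 : n * t = u ^ 3 * (t * (n⁻¹ * u ^ 3 * n * (t⁻¹ * u ^ 3)))) :
    u = 1 ∧ t = 1 ∧ m = 1 ∧ n = 1 := by
  have hm2 : m * m = 1 := by
    rw [htm, ← mul_assoc] at r3
    simpa using r3
  have hn2 : n * n = 1 := by
    rw [htn, ← mul_assoc] at r4
    simpa using r4
  have htu' : Commute t u := htu
  have ht : t = u ^ 3 := by
    have h1 : u * (t * (u * (t⁻¹ * u))) = u ^ 3 := by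
      have : t * (u * (t⁻¹ * u)) = u * u := by
        rw [← mul_assoc, htu, mul_assoc, mul_inv_cancel_left]
      rw [this, pow_succ, pow_two, mul_assoc]
    rw [← h1]
    exact r5
  have hmk : ∀ k : ℕ, m * u ^ k = u ^ (4 * k) * m := by
    intro k
    induction k with
    | zero => simp
    | succ k ih =>
      rw [pow_succ, ← mul_assoc, ih, mul_assoc, r1, ← mul_assoc, ← pow_add, mul_add, mul_one]
  have hnk : ∀ k : ℕ, n * u ^ k = u ^ (9 * k) * n := by
    intro k
    induction k with
    | zero => simp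
    | succ k ih =>
      rw [pow_succ, ← mul_assoc, ih, mul_assoc, r2, ← mul_assoc, ← pow_add, mul_add, mul_one]
  have h15 : u ^ 15 = 1 := by
    have h1 : m * (m * u) = u ^ 16 * (m * m) := by
      rw [r1, ← mul_assoc, hmk 4, mul_assoc]
    rw [← mul_assoc, hm2, one_mul, mul_one] at h1
    have h2 : u ^ 15 * u = 1 * u := by rw [← pow_succ, one_mul]; exact h1.symm
    exact mul_right_cancel h2
  have h80 : u ^ 80 = 1 := by
    have h1 : n * (n * u) = u ^ 81 * (n * n) := by
      rw [r2, ← mul_assoc, hnk 9, mul_assoc]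
    rw [← mul_assoc, hn2, one_mul, mul_one] at h1
    have h2 : u ^ 80 * u = 1 * u := by rw [← pow_succ, one_mul]; exact h1.symm
    exact mul_right_cancel h2
  have h9 : u ^ 9 = 1 := by
    have h1 : u ^ 3 * m = u ^ 12 * m := by
      rw [← hmk 3, ← ht]
      exact htm
    have h2 := mul_right_cancel h1
    have h3 : u ^ 9 * u ^ 3 = 1 * u ^ 3 := by rw [← pow_add, one_mul]; exact h2.symm
    exact mul_right_cancel h3
  have hu : u = 1 := by
    have d1 := orderOf_dvd_of_pow_eq_one h15
    have d2 := orderOf_dvd_of_pow_eq_one h80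
    have d3 := orderOf_dvd_of_pow_eq_one h9
    have d4 : orderOf u ∣ 1 := by
      have := Nat.dvd_gcd (Nat.dvd_gcd d1 d3) d2
      simpa using this
    exact orderOf_eq_one_iff.1 (Nat.dvd_one.1 d4)
  have ht1 : t = 1 := by rw [ht, hu, one_pow]
  subst hu
  subst ht1
  refine ⟨rfl, rfl, ?_, ?_⟩
  · simpa using r6
  · simpa using r7

/-- The relations used below, for a quadruple of elements. -/
structure Rels {G : Type*} [Group G] (u t m n : G) : Prop where
  r1 : m * u = u ^ 4 * m
  r2 : n * u = u ^ 9 * n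
  r3 : m * (t * m) = t
  r4 : n * (t * n) = t
  r5 : t = u * (t * (u * (t⁻¹ * u)))
  r6 : m * t = u ^ 2 * (t * (m⁻¹ * u ^ 2 * m * (t⁻¹ * u ^ 2)))
  r7 : n * t = u ^ 3 * (t * (n⁻¹ * u ^ 3 * n * (t⁻¹ * u ^ 3)))
  cu : (t * t) * u = u * (t * t)
  cm : (t * t) * m = m * (t * t)
  cn : (t * t) * n = n * (t * t)

theorem Rels.map {G K : Type*} [Group G] [Group K] {u t m n : G} (h : Rels u t m n)
    (f : G →* K) : Rels (f u) (f t) (f m) (f n) where
  r1 := by simpa only [map_mul, map_pow, map_inv] using congrArg f h.r1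
  r2 := by simpa only [map_mul, map_pow, map_inv] using congrArg f h.r2
  r3 := by simpa only [map_mul, map_pow, map_inv] using congrArg f h.r3
  r4 := by simpa only [map_mul, map_pow, map_inv] using congrArg f h.r4
  r5 := by simpa only [map_mul, map_pow, map_inv] using congrArg f h.r5
  r6 := by simpa only [map_mul, map_pow, map_inv] using congrArg f h.r6
  r7 := by simpa only [map_mul, map_pow, map_inv] using congrArg f h.r7
  cu := by simpa only [map_mul, map_pow, map_inv] using congrArg f h.cu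
  cm := by simpa only [map_mul, map_pow, map_inv] using congrArg f h.cm
  cn := by simpa only [map_mul, map_pow, map_inv] using congrArg f h.cn

/-- If `φ` is injective, relations can be checked after `φ`. -/
theorem Rels.of_injective {G K : Type*} [Group G] [Group K] {u t m n : G} (f : G →* K)
    (hf : Function.Injective f) (h : Rels (f u) (f t) (f m) (f n)) : Rels u t m n where
  r1 := hf (by simpa only [map_mul, map_pow, map_inv] using h.r1)
  r2 := hf (by simpa only [map_mul, map_pow, map_inv] using h.r2)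
  r3 := hf (by simpa only [map_mul, map_pow, map_inv] using h.r3)
  r4 := hf (by simpa only [map_mul, map_pow, map_inv] using h.r4)
  r5 := hf (by simpa only [map_mul, map_pow, map_inv] using h.r5)
  r6 := hf (by simpa only [map_mul, map_pow, map_inv] using h.r6)
  r7 := hf (by simpa only [map_mul, map_pow, map_inv] using h.r7)
  cu := hf (by simpa only [map_mul, map_pow, map_inv] using h.cu)
  cm := hf (by simpa only [map_mul, map_pow, map_inv] using h.cm)
  cn := hf (by simpa only [map_mul, map_pow, map_inv] using h.cn)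

theorem Rels.collapse {G : Type*} [Group G] {u t m n : G} (h : Rels u t m n)
    (htu : t * u = u * t) (htm : t * m = m * t) (htn : t * n = n * t) :
    u = 1 ∧ t = 1 ∧ m = 1 ∧ n = 1 :=
  MP_f345de_al.collapse u t m n htu htm htn h.r1 h.r2 h.r3 h.r4 h.r5 h.r6 h.r7

/-- A group `E` generated by four elements and an abelian normal subgroup `A` modulo which the
relations hold, with an order invariant on both sides, is equal to `A`. -/
theorem eq_top_of_rels {E : Type*} [Group E] [LinearOrder E] [MulLeftMono E] [MulRightMono E]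
    (A : Subgroup E) [A.Normal] (hA : ∀ a ∈ A, ∀ b ∈ A, a * b = b * a) (e : Fin 4 → E)
    (hgen : ∀ Γ : Subgroup E, A ≤ Γ → (∀ i, e i ∈ Γ) → Γ = ⊤)
    (hrel : Rels (e 0 : E ⧸ A) (e 1 : E ⧸ A) (e 2 : E ⧸ A) (e 3 : E ⧸ A)) : A = ⊤ := by
  refine core A hA (e 1) e hgen ?_ ?_
  · let π : E →* E ⧸ A := QuotientGroup.mk' A
    have hK : (Subgroup.centralizer {π (e 1) * π (e 1)}).comap π = ⊤ := by
      apply hgen
      · intro a ha
        rw [Subgroup.mem_comap, (QuotientGroup.eq_one_iff a).2 ha |> (fun h => (h : π a = 1))]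
        exact Subgroup.one_mem _
      · intro i
        rw [Subgroup.mem_comap, Subgroup.mem_centralizer_iff]
        simp only [Set.mem_singleton_iff, forall_eq]
        fin_cases i
        · exact hrel.cu
        · exact mul_assoc _ _ _
        · exact hrel.cm
        · exact hrel.cn
    intro y
    have hy : y ∈ (Subgroup.centralizer {π (e 1) * π (e 1)}).comap π := by
      rw [hK]; exact Subgroup.mem_top y
    rw [Subgroup.mem_comap, Subgroup.mem_centralizer_iff] at hy
    have h1 := hy _ rfl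
    have h2 : π ⁅e 1 ^ 2, y⁆ = 1 := by
      rw [map_commutatorElement, commutatorElement_eq_one_iff_mul_comm, map_pow, pow_two]
      exact h1
    exact (QuotientGroup.eq_one_iff _).1 h2
  · intro Γ hΓn hAΓ hcomm
    let σ : E ⧸ A →* E ⧸ Γ := QuotientGroup.lift A (QuotientGroup.mk' Γ) (fun a ha =>
      (QuotientGroup.eq_one_iff a).2 (hAΓ ha))
    have hr := hrel.map σ
    have hT : ∀ y : E, ((e 1 : E) : E ⧸ Γ) * (y : E ⧸ Γ) = (y : E ⧸ Γ) * ((e 1 : E) : E ⧸ Γ) := by
      intro y
      have h1 : (QuotientGroup.mk' Γ) ⁅e 1, y⁆ = 1 := (QuotientGroup.eq_one_iff _).2 (hcomm y)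
      rw [map_commutatorElement, commutatorElement_eq_one_iff_mul_comm] at h1
      exact h1
    obtain ⟨c0, c1, c2, c3⟩ := hr.collapse (hT _) (hT _) (hT _)
    apply hgen Γ hAΓ
    intro i
    fin_cases i
    · exact (QuotientGroup.eq_one_iff _).1 c0
    · exact (QuotientGroup.eq_one_iff _).1 c1
    · exact (QuotientGroup.eq_one_iff _).1 c2
    · exact (QuotientGroup.eq_one_iff _).1 c3

/-- Let `G` be a group that contains elements with these relations, `t ≠ 1`. No extension of an
abelian group by `G` has an order invariant on both sides. -/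
theorem no_order {G : Type*} [Group G] {u t m n : G} (hrel : Rels u t m n) (ht : t ≠ 1)
    {E : Type*} [Group E] [LinearOrder E] [MulLeftMono E] [MulRightMono E] (π : E →* G)
    (hπ : Function.Surjective π) (hk : ∀ a ∈ π.ker, ∀ b ∈ π.ker, a * b = b * a) : False := by
  obtain ⟨eu, hu⟩ := hπ u
  obtain ⟨et, ht'⟩ := hπ t
  obtain ⟨em, hm⟩ := hπ m
  obtain ⟨en, hn⟩ := hπ n
  let g : Fin 4 → E := ![eu, et, em, en]
  let E' : Subgroup E := π.ker ⊔ Subgroup.closure (Set.range g)
  have hker : π.ker ≤ E' := le_sup_left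
  have hg : ∀ i, g i ∈ E' := fun i => (le_sup_right : _ ≤ E') (Subgroup.subset_closure ⟨i, rfl⟩)
  have : MulLeftMono E' := ⟨fun c a b h => by
    have h' : (a : E) ≤ b := h
    show (c : E) * a ≤ c * b
    exact mul_le_mul_right h' _⟩
  have : MulRightMono E' := ⟨fun c a b h => by
    have h' : (a : E) ≤ b := h
    show (a : E) * c ≤ b * c
    exact mul_le_mul_left h' _⟩
  let π' : E' →* G := π.comp E'.subtype
  let A : Subgroup E' := π'.ker
  have hA : ∀ a ∈ A, ∀ b ∈ A, a * b = b * a := fun a ha b hb => Subtype.ext (hk a.1 ha b.1 hb)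
  let e : Fin 4 → E' := fun i => ⟨g i, hg i⟩
  have hgen : ∀ Γ : Subgroup E', A ≤ Γ → (∀ i, e i ∈ Γ) → Γ = ⊤ := by
    intro Γ h1 h2
    have h3 : E' ≤ Γ.map E'.subtype := by
      apply sup_le
      · intro a ha
        exact ⟨⟨a, hker ha⟩, h1 ha, rfl⟩
      · rw [Subgroup.closure_le]
        rintro _ ⟨i, rfl⟩
        exact ⟨e i, h2 i, rfl⟩
    rw [eq_top_iff]
    rintro ⟨x, hx⟩ _
    obtain ⟨y, hy, hxy⟩ := h3 hx
    have : y = ⟨x, hx⟩ := Subtype.ext hxy
    rwa [← this]
  have hrel' : Rels (e 0 : E' ⧸ A) (e 1 : E' ⧸ A) (e 2 : E' ⧸ A) (e 3 : E' ⧸ A) := by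
    refine Rels.of_injective (QuotientGroup.kerLift π') (QuotientGroup.kerLift_injective π') ?_
    have e0 : QuotientGroup.kerLift π' (e 0 : E' ⧸ A) = u := hu
    have e1 : QuotientGroup.kerLift π' (e 1 : E' ⧸ A) = t := ht'
    have e2 : QuotientGroup.kerLift π' (e 2 : E' ⧸ A) = m := hm
    have e3 : QuotientGroup.kerLift π' (e 3 : E' ⧸ A) = n := hn
    rw [e0, e1, e2, e3]
    exact hrel
  have htop := eq_top_of_rels A hA e hgen hrel'
  have h1 : e 1 ∈ A := by rw [htop]; exact Subgroup.mem_top _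
  exact ht (ht'.symm.trans h1)

end Pool.Agent.Work.MP_f345de_al
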