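import Pool.Agent.Work.MP_f345de_al.General

set_option autoImplicit false

open scoped commutatorElement

namespace Pool.Agent.Work.MP_f345de_al

theorem four_pos : (0 : ℚ) < 2 * 2 := by norm_num

theorem nine_pos : (0 : ℚ) < 3 * 3 := by norm_num

/-- The relations hold for the lifts of `r + 1`, `-1 / r`, `4 r`, `9 r`. -/
theorem rels_X : Rels (uX 1) tX (mX (2 * 2) four_pos) (mX (3 * 3) nine_pos) := by
  have U2 : uX 1 ^ 2 = uX 2 := by
    simp only [pow_two, uX_mul]; norm_num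
  have U3 : uX 1 ^ 3 = uX 3 := by
    rw [pow_succ, U2]; simp only [uX_mul]; norm_num
  have U4 : uX 1 ^ 4 = uX (2 * 2) := by
    rw [pow_succ, U3]; simp only [uX_mul]; norm_num
  have U9 : uX 1 ^ 9 = uX (3 * 3) := by
    have : uX 1 ^ 9 = uX 1 ^ 4 * uX 1 ^ 4 * uX 1 := by group
    rw [this, U4]; simp only [uX_mul]; norm_num
  have hM1 : ∀ h, mX (1 * 1) h = 1 := by
    intro h
    apply ext_mk
    intro n r hr
    rw [mX_mk]
    refine mk_congr rfl ?_
    norm_num
  refine ⟨?_, ?_, tX_mul_mX _ _, tX_mul_mX _ _, ?_, ?_, ?_, tX_sq_uX 1, tX_sq_mX _ _,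
    tX_sq_mX _ _⟩
  · rw [U4]; simp only [mX_mul_uX]; norm_num
  · rw [U9]; simp only [mX_mul_uX]; norm_num
  · have := key_rel 1 one_pos
    rw [hM1, one_mul, inv_one] at this
    exact this
  · have h1 := key_rel 2 two_pos
    have h2 : (mX (2 * 2) four_pos)⁻¹ * uX 1 ^ 2 * mX (2 * 2) four_pos = uX 2⁻¹ := by
      rw [U2, mul_assoc, inv_mul_eq_iff_eq_mul, mX_mul_uX]
      norm_num
    rw [h2, U2]
    exact h1
  · have h1 := key_rel 3 three_pos
    have h2 : (mX (3 * 3) nine_pos)⁻¹ * uX 1 ^ 3 * mX (3 * 3) nine_pos = uX 3⁻¹ := by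
      rw [U3, mul_assoc, inv_mul_eq_iff_eq_mul, mX_mul_uX]
      norm_num
    rw [h2, U3]
    exact h1

theorem tX_ne_one : tX ≠ 1 := by
  intro h5
  have h6 : (tX * tX) (mk 0 (√2) irrational_sqrt_two) = mk 0 (√2) irrational_sqrt_two := by
    rw [h5]; rfl
  have h8 : mk (0 + 1) (√2) irrational_sqrt_two = mk 0 (√2) irrational_sqrt_two :=
    (tX_sq_mk 0 (√2) irrational_sqrt_two).symm.trans h6
  rw [mk_eq_iff] at h8
  simp at h8

section wreath

/-- Copies of `X`, one for each integer. -/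
abbrev Y : Type := ℤ ×ₗ X

/-- The automorphism that acts on the copy `k` by `h k`. -/
noncomputable def blk : (ℤ → (X ≃o X)) →* (Y ≃o Y) where
  toFun h :=
    { toFun := fun p => toLex ((ofLex p).1, h (ofLex p).1 (ofLex p).2)
      invFun := fun p => toLex ((ofLex p).1, (h (ofLex p).1)⁻¹ (ofLex p).2)
      left_inv := fun p => by
        show toLex ((ofLex p).1, (h (ofLex p).1)⁻¹ (h (ofLex p).1 (ofLex p).2)) = p
        rw [← RelIso.mul_apply, inv_mul_cancel]
        rfl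
      right_inv := fun p => by
        show toLex ((ofLex p).1, (h (ofLex p).1) ((h (ofLex p).1)⁻¹ (ofLex p).2)) = p
        rw [← RelIso.mul_apply, mul_inv_cancel]
        rfl
      map_rel_iff' := by
        intro p q
        obtain ⟨p1, p2⟩ := p
        obtain ⟨q1, q2⟩ := q
        show toLex (p1, h p1 p2) ≤ toLex (q1, h q1 q2) ↔ toLex (p1, p2) ≤ toLex (q1, q2)
        rw [Prod.Lex.toLex_le_toLex, Prod.Lex.toLex_le_toLex]
        constructor
        · rintro (h1 | ⟨h1, h2⟩)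
          · exact Or.inl h1
          · simp only at h1 h2
            subst h1
            exact Or.inr ⟨rfl, (h p1).le_iff_le.1 h2⟩
        · rintro (h1 | ⟨h1, h2⟩)
          · exact Or.inl h1
          · simp only at h1 h2
            subst h1
            exact Or.inr ⟨rfl, (h p1).le_iff_le.2 h2⟩ }
  map_one' := by
    apply RelIso.ext
    intro p
    rfl
  map_mul' := by
    intro h h'
    apply RelIso.ext
    intro p
    rfl

theorem blk_apply (h : ℤ → (X ≃o X)) (k : ℤ) (x : X) :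
    blk h (toLex (k, x)) = toLex (k, h k x) := rfl

/-- The shift. -/
noncomputable def sY : Y ≃o Y := Prod.Lex.prodLexCongr (OrderIso.addRight (1 : ℤ)) (OrderIso.refl X)

theorem sY_apply (k : ℤ) (x : X) : sY (toLex (k, x)) = toLex (k + 1, x) := rfl

theorem ext_Y {f g : Y ≃o Y} (h : ∀ k x, f (toLex (k, x)) = g (toLex (k, x))) : f = g := by
  apply RelIso.ext
  intro p
  exact h (ofLex p).1 (ofLex p).2

theorem sY_mul_blk (h : ℤ → (X ≃o X)) : sY * blk h = blk (fun k => h (k - 1)) * sY := by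
  apply ext_Y
  intro k x
  rw [RelIso.mul_apply, RelIso.mul_apply, blk_apply, sY_apply, sY_apply, blk_apply,
    add_sub_cancel_right]

theorem sY_conj (h : ℤ → (X ≃o X)) (d : ℕ) :
    (sY ^ d)⁻¹ * blk h * sY ^ d = blk (fun k => h (k + d)) := by
  induction d with
  | zero => simp
  | succ d ih =>
    have h1 := sY_mul_blk (fun k => h (k + (d + 1 : ℕ)))
    have h2 : (fun k : ℤ => h (k - 1 + (d + 1 : ℕ))) = fun k => h (k + d) := by
      funext k
      congr 1
      push_cast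
      ring
    rw [h2] at h1
    rw [pow_succ, mul_inv_rev]
    calc sY⁻¹ * (sY ^ d)⁻¹ * blk h * (sY ^ d * sY)
        = sY⁻¹ * ((sY ^ d)⁻¹ * blk h * sY ^ d) * sY := by group
      _ = sY⁻¹ * (blk (fun k => h (k + d)) * sY) := by rw [ih, mul_assoc]
      _ = blk (fun k => h (k + (d + 1 : ℕ))) := by rw [← h1, inv_mul_cancel_left]

/-- The four automorphisms, at sparse places. -/
noncomputable def FF : ℤ → (X ≃o X) := fun k =>
  if k = 0 then tX else if k = 1 then uX 1 else if k = 3 then mX (2 * 2) four_pos else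
    if k = 7 then mX (3 * 3) nine_pos else 1

theorem FF_0 : FF 0 = tX := by simp [FF]

theorem FF_1 : FF 1 = uX 1 := by simp [FF]

theorem FF_3 : FF 3 = mX (2 * 2) four_pos := by simp [FF]

theorem FF_7 : FF 7 = mX (3 * 3) nine_pos := by simp [FF]

theorem FF_else {k : ℤ} (h0 : k ≠ 0) (h1 : k ≠ 1) (h3 : k ≠ 3) (h7 : k ≠ 7) : FF k = 1 := by
  simp [FF, h0, h1, h3, h7]

/-- The two-generator group. -/
noncomputable def KK : Subgroup (Y ≃o Y) := Subgroup.closure {sY, blk FF}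

theorem sY_mem : sY ∈ KK := Subgroup.subset_closure (by simp)

theorem blk_mem : blk FF ∈ KK := Subgroup.subset_closure (by simp)

theorem shift_mem (d : ℕ) : blk (fun k => FF (k + d)) ∈ KK := by
  rw [← sY_conj]
  exact KK.mul_mem (KK.mul_mem (KK.inv_mem (KK.pow_mem sY_mem d)) blk_mem) (KK.pow_mem sY_mem d)

/-- The copy number `0` of the automorphism group of `X`. -/
noncomputable def cop : (X ≃o X) →* (Y ≃o Y) := blk.comp (MonoidHom.mulSingle (fun _ : ℤ => X ≃o X) 0)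

theorem cop_apply (g : X ≃o X) : cop g = blk (Pi.mulSingle 0 g) := rfl

theorem cop_injective : Function.Injective cop := by
  intro g g' h
  apply RelIso.ext
  intro x
  have h1 : cop g (toLex (0, x)) = cop g' (toLex (0, x)) := by rw [h]
  rw [cop_apply, cop_apply, blk_apply, blk_apply, Pi.mulSingle_eq_same, Pi.mulSingle_eq_same] at h1
  exact congrArg (fun p : Y => (ofLex p).2) h1

theorem conj_cop (h : ℤ → (X ≃o X)) (g : X ≃o X) :
    blk h * cop g * (blk h)⁻¹ = cop (h 0 * g * (h 0)⁻¹) := by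
  rw [cop_apply, cop_apply, ← map_inv, ← map_mul, ← map_mul]
  congr 1
  funext k
  by_cases hk : k = 0
  · subst hk
    simp only [Pi.mul_apply, Pi.inv_apply, Pi.mulSingle_eq_same]
  · simp only [Pi.mul_apply, Pi.inv_apply, Pi.mulSingle_eq_of_ne hk, mul_one, mul_inv_cancel]

/-- Automorphisms whose copy number `0` lies in the group. -/
noncomputable def N0 : Subgroup (X ≃o X) := KK.comap cop

theorem mem_N0 {g : X ≃o X} : g ∈ N0 ↔ cop g ∈ KK := Iff.rfl

theorem norm_N0 (d : ℕ) : FF d ∈ Subgroup.normalizer (N0 : Set (X ≃o X)) := by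
  rw [Subgroup.mem_normalizer_iff]
  intro g
  rw [mem_N0, mem_N0]
  have h1 := conj_cop (fun k : ℤ => FF (k + d)) g
  rw [zero_add] at h1
  rw [← h1]
  constructor
  · intro h
    exact KK.mul_mem (KK.mul_mem (shift_mem d) h) (KK.inv_mem (shift_mem d))
  · intro h
    have h2 := KK.mul_mem (KK.mul_mem (KK.inv_mem (shift_mem d)) h) (shift_mem d)
    have h3 : (blk fun k => FF (k + ↑d))⁻¹ *
        ((blk fun k => FF (k + ↑d)) * cop g * (blk fun k => FF (k + ↑d))⁻¹) *
        (blk fun k => FF (k + ↑d)) = cop g := by group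
    rwa [h3] at h2

theorem comm_N0 {d : ℕ} (hd : d = 1 ∨ d = 3 ∨ d = 7) : ⁅tX, FF d⁆ ∈ N0 := by
  rw [mem_N0]
  have h1 : cop ⁅tX, FF d⁆ = ⁅blk FF, blk (fun k => FF (k + d))⁆ := by
    rw [cop_apply, ← map_commutatorElement]
    congr 1
    funext k
    have h2 : (⁅FF, fun k : ℤ => FF (k + d)⁆ : ℤ → (X ≃o X)) k = ⁅FF k, FF (k + d)⁆ := by
      simp only [commutatorElement_def, Pi.mul_apply, Pi.inv_apply]
    rw [h2]
    by_cases hk : k = 0
    · subst hk
      rw [Pi.mulSingle_eq_same, FF_0, zero_add]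
    · rw [Pi.mulSingle_eq_of_ne hk]
      symm
      by_cases h1 : k = 1 ∨ k = 3 ∨ k = 7
      · have h3 : FF (k + d) = 1 := by
          apply FF_else <;> omega
        rw [h3, commutatorElement_one_right]
      · push Not at h1
        rw [FF_else hk h1.1 h1.2.1 h1.2.2, commutatorElement_one_left]
  rw [h1]
  have h4 : blk FF ∈ KK := blk_mem
  have h5 := shift_mem d
  rw [commutatorElement_def]
  exact KK.mul_mem (KK.mul_mem (KK.mul_mem h4 h5) (KK.inv_mem h4)) (KK.inv_mem h5)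

theorem gens_mem : uX 1 ∈ N0 ∧ tX ∈ N0 ∧ mX (2 * 2) four_pos ∈ N0 ∧ mX (3 * 3) nine_pos ∈ N0 := by
  obtain ⟨g, g0, g1, g2, g3⟩ : ∃ g : Fin 4 → (X ≃o X), g 0 = uX 1 ∧ g 1 = tX ∧
      g 2 = mX (2 * 2) four_pos ∧ g 3 = mX (3 * 3) nine_pos :=
    ⟨![uX 1, tX, mX (2 * 2) four_pos, mX (3 * 3) nine_pos], rfl, rfl, rfl, rfl⟩
  have n0 : FF 1 ∈ Subgroup.normalizer (N0 : Set (X ≃o X)) := norm_N0 1
  have n1 : FF 0 ∈ Subgroup.normalizer (N0 : Set (X ≃o X)) := norm_N0 0
  have n2 : FF 3 ∈ Subgroup.normalizer (N0 : Set (X ≃o X)) := norm_N0 3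
  have n3 : FF 7 ∈ Subgroup.normalizer (N0 : Set (X ≃o X)) := norm_N0 7
  have c0 : ⁅tX, FF 1⁆ ∈ N0 := comm_N0 (d := 1) (by omega)
  have c2 : ⁅tX, FF 3⁆ ∈ N0 := comm_N0 (d := 3) (by omega)
  have c3 : ⁅tX, FF 7⁆ ∈ N0 := comm_N0 (d := 7) (by omega)
  have hr0 := rels_X
  rw [FF_1, ← g0] at n0
  rw [FF_0, ← g1] at n1
  rw [FF_3, ← g2] at n2
  rw [FF_7, ← g3] at n3
  rw [FF_1, ← g0, ← g1] at c0
  rw [FF_3, ← g2, ← g1] at c2
  rw [FF_7, ← g3, ← g1] at c3
  rw [← g0, ← g1, ← g2, ← g3] at hr0 ⊢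
  clear g0 g1 g2 g3
  let G : Subgroup (X ≃o X) := Subgroup.closure (Set.range g)
  have hg : ∀ i, g i ∈ G := fun i => Subgroup.subset_closure ⟨i, rfl⟩
  have hGn : G ≤ Subgroup.normalizer (N0 : Set (X ≃o X)) := by
    rw [Subgroup.closure_le]
    rintro _ ⟨i, rfl⟩
    fin_cases i
    · exact n0
    · exact n1
    · exact n2
    · exact n3
  have hN : (N0.subgroupOf G).Normal := Subgroup.normal_subgroupOf_of_le_normalizer hGn
  let e : Fin 4 → G := fun i => ⟨g i, hg i⟩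
  have hr : Rels (e 0) (e 1) (e 2) (e 3) := Rels.of_injective G.subtype G.subtype_injective hr0
  let q : G →* G ⧸ N0.subgroupOf G := QuotientGroup.mk' _
  have hr' := hr.map q
  have hc : ∀ i : Fin 4, ⁅g 1, g i⁆ ∈ N0 → q (e 1) * q (e i) = q (e i) * q (e 1) := by
    intro i hi
    rw [← commutatorElement_eq_one_iff_mul_comm, ← map_commutatorElement]
    refine (QuotientGroup.eq_one_iff _).2 ?_
    rw [Subgroup.mem_subgroupOf]
    exact hi
  obtain ⟨d0, d1, d2, d3⟩ := hr'.collapse (hc 0 c0) (hc 2 c2) (hc 3 c3)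
  have hq : ∀ x : G, q x = 1 → x.1 ∈ N0 := fun x hx => by
    have h1 : x ∈ N0.subgroupOf G := (QuotientGroup.eq_one_iff x).1 hx
    rwa [Subgroup.mem_subgroupOf] at h1
  exact ⟨hq _ d0, hq _ d1, hq _ d2, hq _ d3⟩

/-- The two-generator group contains such a quadruple. -/
theorem exists_rels : ∃ u t m n : KK, Rels u t m n ∧ t ≠ 1 := by
  obtain ⟨h0, h1, h2, h3⟩ := gens_mem
  refine ⟨⟨cop (uX 1), h0⟩, ⟨cop tX, h1⟩, ⟨cop (mX (2 * 2) four_pos), h2⟩,
    ⟨cop (mX (3 * 3) nine_pos), h3⟩, ?_, ?_⟩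
  · exact Rels.of_injective KK.subtype KK.subtype_injective (rels_X.map cop)
  · intro h
    have h4 : cop tX = 1 := congrArg Subtype.val h
    rw [← map_one cop] at h4
    exact tX_ne_one (cop_injective h4)

theorem KK_gen : Subgroup.closure {(⟨sY, sY_mem⟩ : KK), ⟨blk FF, blk_mem⟩} = ⊤ := by
  have h1 : ((↑) : KK → (Y ≃o Y)) ⁻¹' {sY, blk FF} =
      {(⟨sY, sY_mem⟩ : KK), ⟨blk FF, blk_mem⟩} := by
    ext x
    simp only [Set.mem_preimage, Set.mem_insert_iff, Set.mem_singleton_iff, Subtype.ext_iff]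
  rw [← h1]
  exact Subgroup.closure_closure_coe_preimage

end wreath

end Pool.Agent.Work.MP_f345de_al
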